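import Pool.Agent.P.MP_2b44f0_gt.Quad
import Pool.Agent.P.MP_2b44f0_gt.Beta
import Pool.Agent.P.MP_2b44f0_gt.Gamma
import Pool.Agent.P.MP_2b44f0_gt.Lin
import Pool.Agent.P.MP_2b44f0_gt.Shape
import Pool.Agent.P.MP_2b44f0_gt.Near
import Pool.Agent.P.MP_2b44f0_gt.Polar
import Pool.Agent.P.MP_2b44f0_gt.SimGeo
import Pool.Agent.P.MP_2b44f0_gt.Upper
import Pool.Agent.P.MP_2b44f0_gt.SimAlg
import Pool.Agent.P.MP_2b44f0_gt.Simons
import Pool.Agent.P.MP_2b44f0_gt.Tube
import Pool.Agent.P.MP_2b44f0_gt.Lower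

/-!
The Simons cone has the least density among minimal hypercones whose link has `|A|² ≥ 2m`,
in particular among those whose link has constant scalar curvature.
-/

namespace Pool.Agent.Results.MP_2b44f0_gt.Pinched

open Pool.Agent.P.MP_2b44f0_gt

/-- the Simons cone itself satisfies the hypothesis of `result`, so the bound is attained -/
theorem simons_pinched (m : ℕ) : ∀ x ∈ simons m, x ≠ 0 → Pinched (2 * m) (simons m) x :=
  fun _ _ h0 => ⟨_, _, h0, (all_simGeo m).1, fun y hy =>
    ⟨((all_simGeo m).2 y hy.2 hy.1).2.1, ((all_simGeo m).2 y hy.2 hy.1).2.2.1.ge⟩⟩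

theorem result (m : ℕ) (hm : 1 ≤ m) (C : Set (EuclideanSpace ℝ (Fin (m + 1) ⊕ Fin (m + 1))))
    (hclosed : IsClosed C) (hcone : ∀ x ∈ C, ∀ t : ℝ, 0 < t → t • x ∈ C) (hne : ∃ x ∈ C, x ≠ 0)
    (hreg : ∀ x ∈ C, x ≠ 0 → Touched C x → Pinched (2 * m) C x ∨ ConstCurv C x) :
    density (2 * m + 1) (simons m) ≤ density (2 * m + 1) C := by
  have hcard : Fintype.card (Fin (m + 1) ⊕ Fin (m + 1)) = 2 * m + 2 := by
    simp only [Fintype.card_sum, Fintype.card_fin]; ring
  have hcurve := all_curve all_shape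
  have hcn := all_cone all_shape hcurve
  have h1 := all_lower (all_tube all_shape) all_polar all_line all_cover all_shape hcn
    (all_near all_shape hcurve) (all_lin all_quad (all_model all_beta all_gamma)) all_bound
    _ m C hcard hm hclosed hcone hne fun x hx h0 ht => (hreg x hx h0 ht).elim id fun h => by
      have := all_simons all_simAlg all_shape hcurve hcn _ C x hcone h
      rwa [hcard, show ((2 * m + 2 : ℕ) : ℝ) - 2 = 2 * m by push_cast; ring] at this
  have h2 := all_upper (all_tube all_shape) all_polar all_line all_cover all_simGeo all_linEq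
    all_shape m
  exact ENNReal.div_le_div_right ((ENNReal.mul_le_mul_iff_right (Lower.J_ne_zero m)
    (Lower.J_ne_top m)).1 (h2.trans h1)) _

end Pool.Agent.Results.MP_2b44f0_gt.Pinched
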