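import Pool.Agent.P.MP_2b44f0_gt.PD.All
import Pool.Agent.Results.MP_2b44f0_gt.Pinched

/-!
The Simons cone has the least density among smooth minimal hypercones whose link has mean value
of `|A|²` at most `2m`.
-/

namespace Pool.Agent.Results.MP_2b44f0_gt.MeanPinched

open MeasureTheory Pool.Agent.P.MP_2b44f0_gt

theorem result (m : ℕ) (hm : 1 ≤ m) (C U : Set (EuclideanSpace ℝ (Fin (m + 1) ⊕ Fin (m + 1))))
    (F : EuclideanSpace ℝ (Fin (m + 1) ⊕ Fin (m + 1)) → ℝ) (h : SmoothCone C U F)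
    (hmean : ∫ y in C ∩ Metric.ball 0 1, (‖y‖ ^ 2 * sqCurv F y - 2 * m)
      ∂Measure.euclideanHausdorffMeasure (2 * m + 1) ≤ 0) :
    density (2 * m + 1) (simons m) ≤ density (2 * m + 1) C := by
  have hs : PD.St (2 * m) C U F := ⟨h, by
    simp only [Fintype.card_sum, Fintype.card_fin]; ring, by omega⟩
  have hom : ∀ y ∈ C, y ≠ 0 → ‖y‖ ^ 2 * sqCurv F y = sqCurv F (‖y‖⁻¹ • y) := fun y hy h0 => by
    rw [← (PD.a_HOM _ _ C U F hs y hy h0 _ (inv_pos.2 (norm_pos_iff.2 h0))).2.2,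
      PD.lk_norm (hs.mem_lk hy h0), one_pow, one_mul]
  have hi := (PD.a_FIN _ _ C U F hs).2.2.2 (fun x => sqCurv F x - (2 * m : ℕ))
    ((hs.sm_sqCurv.continuousOn.mono hs.lk_sub).sub continuousOn_const)
  have hS := PD.a_EQ _ _ C U F hs (by
    rw [PD.lm, integral_map (by fun_prop) hi.aestronglyMeasurable]
    refine le_of_eq_of_le (integral_congr_ae ?_) hmean
    have h0 : Measure.euclideanHausdorffMeasure (2 * m + 1)
        ({0} : Set (EuclideanSpace ℝ (Fin (m + 1) ⊕ Fin (m + 1)))) = 0 := by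
      haveI := Measure.noAtoms_hausdorff (EuclideanSpace ℝ (Fin (m + 1) ⊕ Fin (m + 1)))
        (d := ((2 * m + 1 : ℕ) : ℝ)) (by positivity)
      rw [Measure.euclideanHausdorffMeasure_def, Measure.smul_apply, measure_singleton, smul_zero]
    filter_upwards [ae_restrict_mem (h.closed.measurableSet.inter Metric.isOpen_ball.measurableSet),
      ae_restrict_of_ae (measure_eq_zero_iff_ae_notMem.1 h0)] with y hy hy0
    rw [hom y hy.1 hy0]
    push_cast
    rfl)
  obtain ⟨x₀, hx₀, h0⟩ := h.nonflat (EuclideanSpace.single (Sum.inl 0) 1) (by simp)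
  refine Pinched.result m hm C h.closed h.cone ⟨x₀, hx₀, fun e => h0 (by simp [e])⟩
    fun x hx h0 _ => Or.inl ⟨U ∩ {0}ᶜ, F, ⟨h.cover x hx h0, h0⟩,
      ⟨h.chart.isOpen.inter isOpen_compl_singleton, h.chart.smooth.mono Set.inter_subset_left,
        fun y hy => h.chart.grad_ne y hy.1, fun y hy => h.chart.zero_set y hy.1⟩, fun y hy => ?_⟩
  refine ⟨h.minimal y hy.2 hy.1.2, ?_⟩
  rw [hom y hy.2 hy.1.2, hS _ (hs.mem_lk hy.2 hy.1.2)]
  simp

end Pool.Agent.Results.MP_2b44f0_gt.MeanPinched
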