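import Pool.Agent.P.MP_2b44f0_gt.PD.FinB
import Pool.Agent.P.MP_2b44f0_gt.PD.VolG
import Pool.Agent.P.MP_2b44f0_gt.PD.LmZ
import Pool.Agent.P.MP_2b44f0_gt.PD.VmZ

/-!
The Simons cone has the least density among the stable minimal hypercones of `ℝ⁸` that are smooth
away from the vertex and are not hyperplanes.
-/

namespace Pool.Agent.Results.MP_2b44f0_gt.StableR8

open Pool.Agent.P.MP_2b44f0_gt

theorem result (C U : Set (EuclideanSpace ℝ (Fin (3 + 1) ⊕ Fin (3 + 1))))
    (F : EuclideanSpace ℝ (Fin (3 + 1) ⊕ Fin (3 + 1)) → ℝ) (h : SmoothCone C U F)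
    (hs : Stable 7 C F) : density 7 (simons 3) ≤ density 7 C := by
  obtain ⟨A₀, A₁, A₂, g, hc⟩ := PD.Vol.cert PD.Vol.all_types PD.Chk.lmi_all
  simpa using PD.fin_stable (by norm_num) hc h hs

end Pool.Agent.Results.MP_2b44f0_gt.StableR8
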