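import Pool.Agent.P.MP_2b44f0_gt.Gap.Trans

/-!
A density gap for stationary varifold hypercones that does not depend on the dimension.
-/

namespace Pool.Agent.Results.MP_2b44f0_gt.UniformGap

open MeasureTheory Pool.Agent.P.MP_2b44f0_gt.Vf

theorem result (k : ℕ) (E : Type) [NormedAddCommGroup E] [InnerProductSpace ℝ E]
    [FiniteDimensional ℝ E] [MeasurableSpace E] [BorelSpace E] (hE : Module.finrank ℝ E = k + 1)
    (V : Measure (E × Gr E k)) [IsFiniteMeasureOnCompacts V.fst]
    (hs : Stationary V) (hc : IsCone V) (hd : DensityGeOne k V.fst)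
    (hf : ¬ ∃ ω : E, ω ≠ 0 ∧ ∀ᵐ x ∂V.fst, inner ℝ ω x = 0) :
    101 / 100 < ratio k V.fst 0 1 :=
  gap hE V hs hc hd hf

end Pool.Agent.Results.MP_2b44f0_gt.UniformGap
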